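import Pool.Agent.Helper20.QP.St2

set_option autoImplicit false

open Filter Topology Matrix Set Metric MeasureTheory
open scoped ComplexConjugate ENNReal

namespace Pool.Agent.Helper2.QP

open Pool.Agent.Helper35.PM Pool.Agent.Helper20.QD Pool.Agent.Helper20.QP

private noncomputable def vv (M : Mat) : EuclideanSpace ℂ (Fin 2 × Fin 2) :=
  WithLp.toLp 2 (fun p => M p.1 p.2)

private theorem vv_sub (M N : Mat) : vv (M - N) = vv M - vv N := rfl

private theorem vv_norm (M : Mat) : ‖vv M‖ ^ 2 = hs M := by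
  rw [EuclideanSpace.norm_sq_eq]
  unfold hs vv
  rw [Fintype.sum_prod_type]

theorem hTBD : StTBD := by
  intro Γ _ p X η hη
  classical
  have hs0 : 0 < Real.sqrt η / 2 := by positivity
  obtain ⟨t, htf, ht⟩ := Metric.totallyBounded_iff.1
    (isCompact_closedBall (0 : EuclideanSpace ℂ (Fin 2 × Fin 2)) (Real.sqrt X)).totallyBounded
    (Real.sqrt η / 2) hs0
  let I : (Γ →* SL) → Set (EuclideanSpace ℂ (Fin 2 × Fin 2)) := fun σ =>
    {c | c ∈ t ∧ ∃ γ, hs (σ γ : Mat) ≤ X ∧ dist (vv (σ γ : Mat)) c < Real.sqrt η / 2}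
  let R : Set (Set (EuclideanSpace ℂ (Fin 2 × Fin 2))) := {S | ∃ σ, p σ ∧ I σ = S}
  have hR : R.Finite := by
    refine htf.finite_subsets.subset ?_
    rintro S ⟨σ, -, rfl⟩
    exact fun c hc => hc.1
  have hch : ∀ S : Set (EuclideanSpace ℂ (Fin 2 × Fin 2)), ∃ σ : Γ →* SL, S ∈ R → p σ ∧ I σ = S := by
    intro S
    by_cases h : S ∈ R
    · obtain ⟨σ, h1, h2⟩ := h
      exact ⟨σ, fun _ => ⟨h1, h2⟩⟩
    · exact ⟨1, fun h' => absurd h' h⟩
  choose rep hrep using hch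
  refine ⟨rep '' R, hR.image rep, ?_, ?_⟩
  · rintro τ ⟨S, hS, rfl⟩
    exact (hrep S hS).1
  · intro σ hσ
    have hIR : I σ ∈ R := ⟨σ, hσ, rfl⟩
    refine ⟨rep (I σ), ⟨I σ, hIR, rfl⟩, ?_⟩
    have hI : I (rep (I σ)) = I σ := (hrep _ hIR).2
    generalize rep (I σ) = τ at hI
    -- the main step
    have step : ∀ (σ τ : Γ →* SL), I τ = I σ → ∀ γ, hs (σ γ : Mat) ≤ X →
        ∃ γ', hs ((σ γ : Mat) - (τ γ' : Mat)) ≤ η := by
      intro σ τ hI γ hγ
      have h1 : vv (σ γ : Mat) ∈ closedBall (0 : EuclideanSpace ℂ (Fin 2 × Fin 2)) (Real.sqrt X) := by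
        rw [mem_closedBall_zero_iff]
        refine Real.le_sqrt_of_sq_le ?_
        rw [vv_norm]
        exact hγ
      obtain ⟨c, hc, hd⟩ := mem_iUnion₂.1 (ht h1)
      have h2 : c ∈ I τ := by
        rw [hI]
        exact ⟨hc, γ, hγ, hd⟩
      obtain ⟨-, γ', -, hd'⟩ := h2
      refine ⟨γ', ?_⟩
      rw [← vv_norm, vv_sub, ← dist_eq_norm]
      have h3 : dist (vv (σ γ : Mat)) (vv (τ γ' : Mat)) ≤ Real.sqrt η := by
        have h4 := dist_triangle_right (vv (σ γ : Mat)) (vv (τ γ' : Mat)) c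
        have h5 : dist (vv (σ γ : Mat)) c < Real.sqrt η / 2 := hd
        linarith
      calc dist (vv (σ γ : Mat)) (vv (τ γ' : Mat)) ^ 2 ≤ Real.sqrt η ^ 2 :=
            pow_le_pow_left₀ dist_nonneg h3 2
        _ = η := Real.sq_sqrt hη.le
    refine ⟨step σ τ hI, ?_⟩
    intro γ' hγ'
    obtain ⟨γ, h⟩ := step τ σ hI.symm γ' hγ'
    refine ⟨γ, ?_⟩
    rw [← vv_norm, vv_sub, norm_sub_rev, ← vv_sub, vv_norm]
    exact h

end Pool.Agent.Helper2.QP
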